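import Pool.Agent.H28.GN.T4

/-!
Row BZD of the board thg_modules (MP_c59857_nt), and tools for the rows GVI and GVN.
-/

set_option autoImplicit false

open Filter Topology Finset

namespace Pool.Agent.H19.GN

open Pool.Agent.H28.GN

lemma cj_mul (a b : ℂ) : cj (a * b) = cj a * cj b := by
  unfold cj
  exact map_mul _ a b

lemma cj_cj (a : ℂ) : cj (cj a) = a := by
  unfold cj
  exact Complex.conj_conj a

lemma cj_sum {ι : Type*} (s : Finset ι) (f : ι → ℂ) : cj (∑ i ∈ s, f i) = ∑ i ∈ s, cj (f i) := by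
  unfold cj
  exact map_sum _ _ _

lemma norm_cj (a : ℂ) : ‖cj a‖ = ‖a‖ := by
  unfold cj
  exact Complex.norm_conj a

lemma mul_cj (a : ℂ) : a * cj a = ((‖a‖ ^ 2 : ℝ) : ℂ) := by
  unfold cj
  rw [Complex.mul_conj, Complex.normSq_eq_norm_sq]

lemma cj_prod {ι : Type*} (s : Finset ι) (f : ι → ℂ) : cj (∏ i ∈ s, f i) = ∏ i ∈ s, cj (f i) := by
  unfold cj
  exact map_prod _ _ _

/-- exchange of double sums -/
lemma sum4 {E : Type*} [AddCommMonoid E] (s t : Finset ℕ) (F : ℕ → ℕ → ℕ → ℕ → E) :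
    ∑ k ∈ s, ∑ k' ∈ s, ∑ x ∈ t, ∑ y ∈ t, F k k' x y =
      ∑ x ∈ t, ∑ y ∈ t, ∑ k ∈ s, ∑ k' ∈ s, F k k' x y := by
  calc ∑ k ∈ s, ∑ k' ∈ s, ∑ x ∈ t, ∑ y ∈ t, F k k' x y
      = ∑ k ∈ s, ∑ x ∈ t, ∑ k' ∈ s, ∑ y ∈ t, F k k' x y :=
        Finset.sum_congr rfl (fun k _ => Finset.sum_comm)
    _ = ∑ k ∈ s, ∑ x ∈ t, ∑ y ∈ t, ∑ k' ∈ s, F k k' x y :=
        Finset.sum_congr rfl (fun k _ => Finset.sum_congr rfl (fun x _ => Finset.sum_comm))
    _ = ∑ x ∈ t, ∑ k ∈ s, ∑ y ∈ t, ∑ k' ∈ s, F k k' x y := Finset.sum_comm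
    _ = ∑ x ∈ t, ∑ y ∈ t, ∑ k ∈ s, ∑ k' ∈ s, F k k' x y :=
        Finset.sum_congr rfl (fun x _ => Finset.sum_comm)

/-- exchange of averages -/
lemma avg4 (s t : Finset ℕ) (F : ℕ → ℕ → ℕ → ℕ → ℂ) (P Q : ℂ) :
    (∑ k ∈ s, ∑ k' ∈ s, (∑ x ∈ t, ∑ y ∈ t, F k k' x y) / P) / Q =
      (∑ x ∈ t, ∑ y ∈ t, (∑ k ∈ s, ∑ k' ∈ s, F k k' x y) / Q) / P := by
  simp_rw [Finset.sum_div]
  rw [sum4]
  refine Finset.sum_congr rfl (fun x _ => Finset.sum_congr rfl (fun y _ =>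
    Finset.sum_congr rfl (fun k _ => Finset.sum_congr rfl (fun k' _ => ?_))))
  exact div_right_comm _ _ _

/-- Row BZD. -/
theorem pf_BZD : T_BZD := by
  intro c H h J
  induction J with
  | zero =>
    intro Φ m _
    have e1 : ∀ k k' : ℕ, BZ c H 0 (fun a => Φ (a + k + 1) * cj (Φ (a + k' + 1))) m =
        Φ (m + k + 1) * cj (Φ (m + k' + 1)) := fun _ _ => rfl
    have e2 : DZ c H h 0 Φ m = ‖(∑ k ∈ range h, Φ (m + k + 1)) / h‖ ^ 2 := rfl
    simp_rw [e1]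
    rw [e2, ← mul_cj]
    have e3 : cj ((∑ k ∈ range h, Φ (m + k + 1)) / (h : ℂ)) =
        (∑ k ∈ range h, cj (Φ (m + k + 1))) / (h : ℂ) := by
      unfold cj
      rw [map_div₀, map_sum, Complex.conj_natCast]
    rw [e3]
    have e4 : ∑ k ∈ range h, ∑ k' ∈ range h, Φ (m + k + 1) * cj (Φ (m + k' + 1)) =
        (∑ k ∈ range h, Φ (m + k + 1)) * (∑ k' ∈ range h, cj (Φ (m + k' + 1))) := by
      rw [Finset.sum_mul_sum]
    rw [e4, div_mul_div_comm, sq]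
  | succ J ih =>
    intro Φ m hh
    have e1 : ∀ k k' : ℕ, BZ c H (J + 1) (fun a => Φ (a + k + 1) * cj (Φ (a + k' + 1))) m =
        (∑ x ∈ range H, ∑ y ∈ range H, BZ c H J (fun a =>
          (Φ (a + c * x + k + 1) * cj (Φ (a + c * x + k' + 1))) *
            cj (Φ (a + c * y + k + 1) * cj (Φ (a + c * y + k' + 1)))) m) / (H : ℂ) ^ 2 :=
      fun _ _ => rfl
    have e2 : DZ c H h (J + 1) Φ m = (∑ x ∈ range H, ∑ y ∈ range H,
      DZ c H h J (fun a => Φ (a + c * x) * cj (Φ (a + c * y))) m) / (H : ℝ) ^ 2 := rfl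
    simp_rw [e1]
    rw [avg4, e2]
    push_cast
    congr 1
    refine Finset.sum_congr rfl (fun x _ => Finset.sum_congr rfl (fun y _ => ?_))
    rw [← ih (fun a => Φ (a + c * x) * cj (Φ (a + c * y))) m hh]
    congr 1
    refine Finset.sum_congr rfl (fun k _ => Finset.sum_congr rfl (fun k' _ => ?_))
    congr 1
    funext a
    have a1 : a + (k : ℤ) + 1 + (c : ℤ) * x = a + c * x + k + 1 := by ring
    have a2 : a + (k : ℤ) + 1 + (c : ℤ) * y = a + c * y + k + 1 := by ring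
    have a3 : a + (k' : ℤ) + 1 + (c : ℤ) * x = a + c * x + k' + 1 := by ring
    have a4 : a + (k' : ℤ) + 1 + (c : ℤ) * y = a + c * y + k' + 1 := by ring
    simp only [a1, a2, a3, a4, cj_mul, cj_cj]
    ring

/-! ### averages -/

lemma pow_add_le (a e : ℝ) (ha : 0 ≤ a) (ha1 : a ≤ 1) (he : 0 ≤ e) (he1 : e ≤ 1) (n : ℕ) :
    (a + e) ^ n ≤ a ^ n + n * 2 ^ n * e := by
  induction n with
  | zero => simp
  | succ n ih =>
    have h1 : a ^ n ≤ 1 := pow_le_one₀ ha ha1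
    have h0 : 0 ≤ a ^ n := pow_nonneg ha n
    calc (a + e) ^ (n + 1) = (a + e) ^ n * (a + e) := pow_succ _ _
      _ ≤ (a ^ n + n * 2 ^ n * e) * (a + e) := mul_le_mul_of_nonneg_right ih (by linarith)
      _ = a ^ (n + 1) + a ^ n * e + n * 2 ^ n * e * (a + e) := by ring
      _ ≤ a ^ (n + 1) + 1 * e + n * 2 ^ n * e * 2 := by
          have h2 : a ^ n * e ≤ 1 * e := mul_le_mul_of_nonneg_right h1 he
          have h3 : n * 2 ^ n * e * (a + e) ≤ n * 2 ^ n * e * 2 :=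
            mul_le_mul_of_nonneg_left (by linarith) (by positivity)
          linarith
      _ ≤ a ^ (n + 1) + ((n + 1 : ℕ) : ℝ) * 2 ^ (n + 1) * e := by
          have h4 : (1 : ℝ) ≤ 2 ^ (n + 1) := one_le_pow₀ (by norm_num)
          have h5 : 1 * e ≤ 2 ^ (n + 1) * e := mul_le_mul_of_nonneg_right h4 he
          push_cast
          rw [pow_succ 2 n] at h5 ⊢
          linarith

lemma mean_pow_le (H : ℕ) (hH : 0 < H) (v : ℕ → ℕ → ℝ) (hv0 : ∀ x y, 0 ≤ v x y) (p : ℕ) :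
    ((∑ x ∈ range H, ∑ y ∈ range H, v x y) / (H : ℝ) ^ 2) ^ p ≤
      (∑ x ∈ range H, ∑ y ∈ range H, v x y ^ p) / (H : ℝ) ^ 2 := by
  have hH' : (H : ℝ) ≠ 0 := by exact_mod_cast hH.ne'
  have h := Real.pow_arith_mean_le_arith_mean_pow (range H ×ˢ range H)
    (fun _ => 1 / (H : ℝ) ^ 2) (fun q => v q.1 q.2) (fun _ _ => by positivity) (by
      rw [Finset.sum_const, card_product, card_range, nsmul_eq_mul]
      push_cast
      field_simp) (fun q _ => hv0 _ _) p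
  rw [← Finset.mul_sum, ← Finset.mul_sum, Finset.sum_product, Finset.sum_product] at h
  rw [div_eq_mul_one_div, mul_comm, div_eq_mul_one_div (∑ x ∈ range H, ∑ y ∈ range H, v x y ^ p),
    mul_comm (∑ x ∈ range H, ∑ y ∈ range H, v x y ^ p)]
  exact h

/-- powers of averages -/
lemma pow_step (H : ℕ) (hH : 0 < H) (v : ℕ → ℕ → ℝ) (hv0 : ∀ x y, 0 ≤ v x y)
    (hv1 : ∀ x y, v x y ≤ 1) (L err : ℝ) (hL0 : 0 ≤ L) (hL1 : L ≤ 1) (he : 0 ≤ err)
    (h : L ≤ (∑ x ∈ range H, ∑ y ∈ range H, v x y) / (H : ℝ) ^ 2 + err) (p : ℕ) (hp : 1 ≤ p) :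
    L ^ p ≤ (∑ x ∈ range H, ∑ y ∈ range H, v x y ^ p) / (H : ℝ) ^ 2 + p * 2 ^ p * err := by
  have hH' : (0 : ℝ) < H := by exact_mod_cast hH
  set a : ℝ := (∑ x ∈ range H, ∑ y ∈ range H, v x y) / (H : ℝ) ^ 2 with ha
  have ha0 : 0 ≤ a := by
    rw [ha]
    exact div_nonneg (Finset.sum_nonneg (fun x _ => Finset.sum_nonneg (fun y _ => hv0 x y)))
      (by positivity)
  have ha1 : a ≤ 1 := by
    rw [ha, div_le_one (by positivity)]
    calc ∑ x ∈ range H, ∑ y ∈ range H, v x y ≤ ∑ x ∈ range H, ∑ y ∈ range H, (1 : ℝ) :=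
          Finset.sum_le_sum (fun x _ => Finset.sum_le_sum (fun y _ => hv1 x y))
      _ = (H : ℝ) ^ 2 := by
          simp only [Finset.sum_const, card_range, nsmul_eq_mul]
          ring
  have hmp := mean_pow_le H hH v hv0 p
  rw [← ha] at hmp
  rcases le_or_gt err 1 with h1 | h1
  · have h2 : L ^ p ≤ (a + err) ^ p := pow_le_pow_left₀ hL0 h p
    have h3 := pow_add_le a err ha0 ha1 he h1 p
    linarith
  · have h2 : L ^ p ≤ 1 := pow_le_one₀ hL0 hL1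
    have h3 : 0 ≤ a ^ p := pow_nonneg ha0 p
    have h4 : (1 : ℝ) ≤ p * 2 ^ p := by
      have h5 : (1 : ℝ) ≤ p := by exact_mod_cast hp
      have h6 : (1 : ℝ) ≤ 2 ^ p := one_le_pow₀ (by norm_num)
      nlinarith
    have h5 : 1 * err ≤ p * 2 ^ p * err := mul_le_mul_of_nonneg_right h4 he
    linarith

/-! ### the means `EM` -/

lemma card_Tk (R K : ℕ) : (Tk R K).card = K ^ R := by
  unfold Tk
  rw [Fintype.card_piFinset]
  simp

lemma card_win (w : ℤ) (M : ℕ) : (Ioc w (w + M)).card = M := by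
  rw [Int.card_Ioc]
  simp

lemma EM_norm_le {R : ℕ} {K M : ℕ} (hK : 0 < K) (hM : 0 < M) (w : ℤ) (X : (Fin R → ℕ) → ℤ → ℂ)
    (hX : ∀ t n, ‖X t n‖ ≤ 1) : ‖EM K M w X‖ ≤ 1 := by
  unfold EM
  have hK' : (0 : ℝ) < K := by exact_mod_cast hK
  have hM' : (0 : ℝ) < M := by exact_mod_cast hM
  rw [norm_div, norm_mul, norm_pow, Complex.norm_natCast, Complex.norm_natCast,
    div_le_one (by positivity)]
  calc ‖∑ t ∈ Tk R K, ∑ n ∈ Ioc w (w + M), X t n‖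
      ≤ ∑ t ∈ Tk R K, ∑ n ∈ Ioc w (w + M), (1 : ℝ) := by
        refine le_trans (norm_sum_le _ _) (Finset.sum_le_sum (fun t _ => ?_))
        exact le_trans (norm_sum_le _ _) (Finset.sum_le_sum (fun n _ => hX t n))
    _ = (K : ℝ) ^ R * M := by
        simp only [Finset.sum_const, card_Tk, card_win, nsmul_eq_mul]
        push_cast
        ring

lemma EM_avg {R : ℕ} (K M H : ℕ) (w : ℤ) (X : ℕ → ℕ → (Fin R → ℕ) → ℤ → ℂ) :
    EM K M w (fun t n => (∑ x ∈ range H, ∑ y ∈ range H, X x y t n) / (H : ℂ) ^ 2) =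
      (∑ x ∈ range H, ∑ y ∈ range H, EM K M w (X x y)) / (H : ℂ) ^ 2 := by
  unfold EM
  simp_rw [Finset.sum_div]
  have h : ∀ (F : (Fin R → ℕ) → ℤ → ℕ → ℕ → ℂ),
      ∑ t ∈ Tk R K, ∑ n ∈ Ioc w (w + M), ∑ x ∈ range H, ∑ y ∈ range H, F t n x y =
      ∑ x ∈ range H, ∑ y ∈ range H, ∑ t ∈ Tk R K, ∑ n ∈ Ioc w (w + M), F t n x y := by
    intro F
    calc ∑ t ∈ Tk R K, ∑ n ∈ Ioc w (w + M), ∑ x ∈ range H, ∑ y ∈ range H, F t n x y
        = ∑ t ∈ Tk R K, ∑ x ∈ range H, ∑ n ∈ Ioc w (w + M), ∑ y ∈ range H, F t n x y :=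
          Finset.sum_congr rfl (fun k _ => Finset.sum_comm)
      _ = ∑ t ∈ Tk R K, ∑ x ∈ range H, ∑ y ∈ range H, ∑ n ∈ Ioc w (w + M), F t n x y :=
          Finset.sum_congr rfl (fun k _ => Finset.sum_congr rfl (fun x _ => Finset.sum_comm))
      _ = ∑ x ∈ range H, ∑ t ∈ Tk R K, ∑ y ∈ range H, ∑ n ∈ Ioc w (w + M), F t n x y :=
          Finset.sum_comm
      _ = ∑ x ∈ range H, ∑ y ∈ range H, ∑ t ∈ Tk R K, ∑ n ∈ Ioc w (w + M), F t n x y :=
          Finset.sum_congr rfl (fun x _ => Finset.sum_comm)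
  rw [h]
  refine Finset.sum_congr rfl (fun x _ => Finset.sum_congr rfl (fun y _ =>
    Finset.sum_congr rfl (fun k _ => Finset.sum_congr rfl (fun k' _ => ?_))))
  exact div_right_comm _ _ _

/-- real parts of averages -/
lemma re_avg (H : ℕ) (z : ℕ → ℕ → ℂ) :
    ((∑ x ∈ range H, ∑ y ∈ range H, z x y) / (H : ℂ) ^ 2).re =
      (∑ x ∈ range H, ∑ y ∈ range H, (z x y).re) / (H : ℝ) ^ 2 := by
  have h1 : ((H : ℂ) ^ 2) = (((H : ℝ) ^ 2 : ℝ) : ℂ) := by push_cast; rfl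
  rw [h1, Complex.div_ofReal_re, Complex.re_sum]
  congr 1
  exact Finset.sum_congr rfl (fun x _ => Complex.re_sum _ _)

/-! ### the box averages `BZ` -/

lemma BZ_trans (c H J : ℕ) : ∀ (F : ℤ → ℂ) (s m : ℤ),
    BZ c H J (fun a => F (a + s)) m = BZ c H J F (m + s) := by
  induction J with
  | zero => intro F s m; rfl
  | succ J ih =>
    intro F s m
    have e1 : BZ c H (J + 1) (fun a => F (a + s)) m = (∑ x ∈ range H, ∑ y ∈ range H,
      BZ c H J (fun a => F (a + c * x + s) * cj (F (a + c * y + s))) m) / (H : ℂ) ^ 2 := rfl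
    have e2 : BZ c H (J + 1) F (m + s) = (∑ x ∈ range H, ∑ y ∈ range H,
      BZ c H J (fun a => F (a + c * x) * cj (F (a + c * y))) (m + s)) / (H : ℂ) ^ 2 := rfl
    rw [e1, e2]
    congr 1
    refine Finset.sum_congr rfl (fun x _ => Finset.sum_congr rfl (fun y _ => ?_))
    rw [← ih (fun a => F (a + c * x) * cj (F (a + c * y))) s m]
    congr 1
    funext a
    have a1 : a + s + (c : ℤ) * x = a + c * x + s := by ring
    have a2 : a + s + (c : ℤ) * y = a + c * y + s := by ring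
    simp only [a1, a2]

end Pool.Agent.H19.GN
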