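import Pool.Agent.H19.GN.BZD

/-!
Row GVI of the board thg_modules (MP_c59857_nt).
-/

set_option autoImplicit false

open Filter Topology Finset

namespace Pool.Agent.H19.GN

open Pool.Agent.H28.GN

/-- the average of the box averages after one step -/
lemma EM_BZ_step {R : ℕ} (c H J K M : ℕ) (w : ℤ) (F : ℤ → ℂ) (s s' : ℤ)
    (L : (Fin R → ℕ) → ℤ) :
    (EM K M w (fun t n => BZ c H (J + 1) F (n + L t + (s' + s)))).re =
      (∑ x ∈ range H, ∑ y ∈ range H, (EM K M w (fun t n =>
        BZ c H J (fun a => F (a + s + c * x) * cj (F (a + s + c * y))) (n + L t + s'))).re) /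
        (H : ℝ) ^ 2 := by
  rw [← re_avg, ← EM_avg]
  congr 2
  funext t n
  have e2 : BZ c H (J + 1) F (n + L t + (s' + s)) = (∑ x ∈ range H, ∑ y ∈ range H,
      BZ c H J (fun a => F (a + c * x) * cj (F (a + c * y))) (n + L t + (s' + s))) /
        (H : ℂ) ^ 2 := rfl
  rw [e2]
  congr 1
  refine Finset.sum_congr rfl (fun x _ => Finset.sum_congr rfl (fun y _ => ?_))
  have a3 : n + L t + (s' + s) = n + L t + s' + s := by ring
  rw [a3, ← BZ_trans]

/-- Row GVI. -/
theorem pf_GVI (h1 : T_GV1) : T_GVI := by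
  intro J
  induction J with
  | zero => intro R a c H hJ; exact absurd hJ (lt_irrefl 0)
  | succ J ih =>
    intro R a c H _ hH hc hDv
    obtain ⟨A1, e, s, hA1, hV⟩ := h1 J R a c H hH hc hDv
    by_cases hJ0 : J = 0
    · subst hJ0
      refine ⟨A1, s, hA1, ?_⟩
      intro F G w M K hF hG hM hK
      have h := hV F G w M K hF hG hM hK
      have e0 := EM_BZ_step (R := R) c H 0 K M w F s 0 (fun t => (lf (a 0) t : ℤ))
      rw [zero_add s] at e0
      rw [e0]
      have e1 : 2 ^ (0 + 1) = 2 := rfl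
      rw [e1]
      refine le_trans h (le_of_eq ?_)
      congr 2
      refine Finset.sum_congr rfl (fun x _ => Finset.sum_congr rfl (fun y _ => ?_))
      congr 2
      funext t n
      have e3 : BZ c H 0 (fun a => F (a + s + c * x) * cj (F (a + s + c * y)))
          (n + (lf (a 0) t : ℤ) + 0) =
          F (n + (lf (a 0) t : ℤ) + 0 + s + c * x) *
            cj (F (n + (lf (a 0) t : ℤ) + 0 + s + c * y)) := rfl
      rw [e3, Fin.prod_univ_zero, mul_one, add_zero]
    · have hJ : 0 < J := Nat.pos_of_ne_zero hJ0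
      have hDv' : Dv c (fun i : Fin (J + 1) => a i.castSucc) := by
        intro j
        obtain ⟨r, hr1, hr2⟩ := hDv j.castSucc
        exact ⟨r, hr1, hr2⟩
      obtain ⟨A', s', hA', hI⟩ := ih R (fun i => a i.castSucc) c H hJ hH hc hDv'
      refine ⟨A' + ((2 ^ J : ℕ) : ℝ) * 2 ^ (2 ^ J) * A1, s' + s, by positivity, ?_⟩
      intro F G w M K hF hG hM hK
      have h := hV F G w M K hF hG hM hK
      set δ : ℝ := 1 / (M : ℝ) + 1 / K with hδ
      have hδ0 : 0 ≤ δ := by positivity
      set E : ℂ := EM K M w (fun t n => F (n + lf (a 0) t) * ∏ j, G j (n + lf (a j.succ) t))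
        with hE
      have hE1 : ‖E‖ ≤ 1 := by
        rw [hE]
        refine EM_norm_le hK hM w _ (fun t n => ?_)
        rw [norm_mul, norm_prod]
        refine mul_le_one₀ (hF _) (Finset.prod_nonneg (fun _ _ => norm_nonneg _)) ?_
        exact Finset.prod_le_one (fun _ _ => norm_nonneg _) (fun j _ => hG _ _)
      set Z : ℕ → ℕ → ℂ := fun x y => EM K M w (fun t n =>
        (F (n + lf (a 0) t + s + c * x) * cj (F (n + lf (a 0) t + s + c * y))) *
        ∏ j : Fin J, (G j.castSucc (n + lf (a j.castSucc.succ) t + e x j) *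
          cj (G j.castSucc (n + lf (a j.castSucc.succ) t + e y j)))) with hZ
      have hF2 : ∀ (x y : ℕ) (m : ℤ), ‖F (m + s + c * x) * cj (F (m + s + c * y))‖ ≤ 1 := by
        intro x y m
        rw [norm_mul, norm_cj]
        exact mul_le_one₀ (hF _) (norm_nonneg _) (hF _)
      have hG2 : ∀ (x y : ℕ) (j : Fin J) (m : ℤ), ‖G j.castSucc (m + e x j) *
          cj (G j.castSucc (m + e y j))‖ ≤ 1 := by
        intro x y j m
        rw [norm_mul, norm_cj]
        exact mul_le_one₀ (hG _ _) (norm_nonneg _) (hG _ _)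
      have hZ1 : ∀ x y, ‖Z x y‖ ≤ 1 := by
        intro x y
        rw [hZ]
        refine EM_norm_le hK hM w _ (fun t n => ?_)
        rw [norm_mul, norm_prod]
        refine mul_le_one₀ (hF2 x y _) (Finset.prod_nonneg (fun _ _ => norm_nonneg _)) ?_
        exact Finset.prod_le_one (fun _ _ => norm_nonneg _) (fun j _ => hG2 x y _ _)
      have hstep : ‖E‖ ^ 2 ≤ (∑ x ∈ range H, ∑ y ∈ range H, ‖Z x y‖) / (H : ℝ) ^ 2 + A1 * δ := by
        refine le_trans h ?_
        have h2 : (∑ x ∈ range H, ∑ y ∈ range H, (Z x y).re) / (H : ℝ) ^ 2 ≤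
            (∑ x ∈ range H, ∑ y ∈ range H, ‖Z x y‖) / (H : ℝ) ^ 2 := by
          refine div_le_div_of_nonneg_right ?_ (by positivity)
          exact Finset.sum_le_sum (fun x _ => Finset.sum_le_sum (fun y _ => Complex.re_le_norm _))
        exact add_le_add_left h2 _
      have hpow := pow_step H hH (fun x y => ‖Z x y‖) (fun _ _ => norm_nonneg _) hZ1 (‖E‖ ^ 2)
        (A1 * δ) (by positivity) (pow_le_one₀ (norm_nonneg _) hE1) (by positivity) hstep (2 ^ J)
        Nat.one_le_two_pow
      have e1 : ‖E‖ ^ (2 ^ (J + 1)) = (‖E‖ ^ 2) ^ (2 ^ J) := by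
        rw [← pow_mul, pow_succ 2 J, mul_comm]
      rw [e1]
      refine le_trans hpow ?_
      have hone : ∀ x y, ‖Z x y‖ ^ (2 ^ J) ≤ (EM K M w (fun t n =>
          BZ c H J (fun a => F (a + s + c * x) * cj (F (a + s + c * y)))
            (n + lf (a 0) t + s'))).re + A' * δ := by
        intro x y
        exact hI (fun m => F (m + s + c * x) * cj (F (m + s + c * y)))
          (fun j m => G j.castSucc (m + e x j) * cj (G j.castSucc (m + e y j))) w M K
          (hF2 x y) (hG2 x y) hM hK
      have hsum : (∑ x ∈ range H, ∑ y ∈ range H, ‖Z x y‖ ^ (2 ^ J)) / (H : ℝ) ^ 2 ≤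
          (EM K M w (fun t n => BZ c H (J + 1) F (n + lf (a 0) t + (s' + s)))).re + A' * δ := by
        rw [EM_BZ_step (R := R) c H J K M w F s s' (fun t => (lf (a 0) t : ℤ))]
        have hH' : (0 : ℝ) < H := by exact_mod_cast hH
        rw [div_add' _ _ _ (by positivity)]
        refine div_le_div_of_nonneg_right ?_ (by positivity)
        refine le_trans (Finset.sum_le_sum (fun x _ => Finset.sum_le_sum (fun y _ => hone x y))) ?_
        simp only [Finset.sum_add_distrib, Finset.sum_const, card_range, nsmul_eq_mul]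
        refine le_of_eq ?_
        ring
      have h9 : (((2 ^ J : ℕ) : ℝ)) * 2 ^ (2 ^ J) * (A1 * δ) =
          ((2 ^ J : ℕ) : ℝ) * 2 ^ (2 ^ J) * A1 * δ := by ring
      rw [h9, add_mul]
      linarith

end Pool.Agent.H19.GN
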