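import Pool.Agent.H19.GN.BZD

/-!
Row GVN of the board thg_modules (MP_c59857_nt): the generalised inequality of von Neumann.
-/

set_option autoImplicit false

open Filter Topology Finset

namespace Pool.Agent.H19.GN

open Pool.Agent.H28.GN

/-- translates of the window -/
lemma win_shift_one (w : ℤ) (M : ℕ) (X : ℤ → ℂ) (hX : ∀ n, ‖X n‖ ≤ 1) (hM : 0 < M) :
    ‖∑ n ∈ Ioc w (w + M), X (n + 1) - ∑ n ∈ Ioc w (w + M), X n‖ ≤ 2 := by
  have h1 : ∑ n ∈ Ioc w (w + M), X (n + 1) = ∑ n ∈ Ioc (w + 1) (w + 1 + M), X n := by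
    refine Finset.sum_nbij' (fun n => n + 1) (fun n => n - 1) ?_ ?_ ?_ ?_ ?_
    · intro n hn
      rw [mem_Ioc] at hn ⊢
      omega
    · intro n hn
      rw [mem_Ioc] at hn ⊢
      omega
    · intro n _
      ring
    · intro n _
      ring
    · intro n _
      rfl
  have h2 : ∑ n ∈ Ioc (w + 1) (w + 1 + M), X n =
      ∑ n ∈ Ioc w (w + M), X n + X (w + 1 + M) - X (w + 1) := by
    have h3 : Ioc w (w + 1 + M) = insert (w + 1) (Ioc (w + 1) (w + 1 + M)) := by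
      ext n
      rw [mem_insert, mem_Ioc, mem_Ioc]
      omega
    have h4 : Ioc w (w + 1 + M) = insert (w + 1 + M) (Ioc w (w + M)) := by
      ext n
      rw [mem_insert, mem_Ioc, mem_Ioc]
      omega
    have h5 : ∑ n ∈ Ioc w (w + 1 + M), X n = X (w + 1) + ∑ n ∈ Ioc (w + 1) (w + 1 + M), X n := by
      rw [h3, Finset.sum_insert]
      rw [mem_Ioc]
      omega
    have h6 : ∑ n ∈ Ioc w (w + 1 + M), X n = X (w + 1 + M) + ∑ n ∈ Ioc w (w + M), X n := by
      rw [h4, Finset.sum_insert]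
      rw [mem_Ioc]
      omega
    have h7 := h5.symm.trans h6
    linear_combination h7
  rw [h1, h2]
  have h8 : ∑ n ∈ Ioc w (w + M), X n + X (w + 1 + M) - X (w + 1) - ∑ n ∈ Ioc w (w + M), X n =
      X (w + 1 + M) - X (w + 1) := by ring
  rw [h8]
  refine le_trans (norm_sub_le _ _) ?_
  have h9 := hX (w + 1 + M)
  have h10 := hX (w + 1)
  linarith

lemma win_shift (w : ℤ) (M : ℕ) (X : ℤ → ℂ) (hX : ∀ n, ‖X n‖ ≤ 1) (hM : 0 < M) (k : ℕ) :
    ‖∑ n ∈ Ioc w (w + M), X (n + k) - ∑ n ∈ Ioc w (w + M), X n‖ ≤ 2 * k := by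
  induction k with
  | zero => simp
  | succ k ih =>
    have h1 := win_shift_one w M (fun n => X (n + k)) (fun n => hX _) hM
    have h2 : ∑ n ∈ Ioc w (w + M), X (n + ((k + 1 : ℕ) : ℤ)) =
        ∑ n ∈ Ioc w (w + M), (fun n => X (n + k)) (n + 1) := by
      refine Finset.sum_congr rfl (fun n _ => ?_)
      have a1 : n + ((k + 1 : ℕ) : ℤ) = n + 1 + k := by push_cast; ring
      simp only [a1]
    rw [h2]
    have h3 : ∑ n ∈ Ioc w (w + M), (fun n => X (n + k)) (n + 1) - ∑ n ∈ Ioc w (w + M), X n =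
        (∑ n ∈ Ioc w (w + M), (fun n => X (n + k)) (n + 1) -
          ∑ n ∈ Ioc w (w + M), (fun n => X (n + k)) n) +
        (∑ n ∈ Ioc w (w + M), X (n + k) - ∑ n ∈ Ioc w (w + M), X n) := by ring
    rw [h3]
    refine le_trans (norm_add_le _ _) ?_
    push_cast
    linarith

lemma win_shift_int (w : ℤ) (M : ℕ) (X : ℤ → ℂ) (hX : ∀ n, ‖X n‖ ≤ 1) (hM : 0 < M) (s : ℤ) :
    ‖∑ n ∈ Ioc w (w + M), X (n + s) - ∑ n ∈ Ioc w (w + M), X n‖ ≤ 2 * |(s : ℝ)| := by
  rcases le_or_gt 0 s with hs | hs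
  · obtain ⟨k, rfl⟩ := Int.eq_ofNat_of_zero_le hs
    have h := win_shift w M X hX hM k
    have e : |(((k : ℕ) : ℤ) : ℝ)| = (k : ℝ) := by
      rw [Int.cast_natCast, abs_of_nonneg (by positivity)]
    rw [e]
    exact h
  · obtain ⟨k, hk⟩ := Int.eq_ofNat_of_zero_le (by omega : 0 ≤ -s)
    have hs' : s = -(k : ℤ) := by omega
    subst hs'
    have h := win_shift w M (fun n => X (n + -(k : ℤ))) (fun n => hX _) hM k
    have e : |((-(k : ℤ) : ℤ) : ℝ)| = (k : ℝ) := by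
      rw [Int.cast_neg, Int.cast_natCast, abs_neg, abs_of_nonneg (by positivity)]
    rw [e, norm_sub_rev]
    have e2 : ∑ n ∈ Ioc w (w + M), (fun n => X (n + -(k : ℤ))) (n + k) =
        ∑ n ∈ Ioc w (w + M), X n := by
      refine Finset.sum_congr rfl (fun n _ => ?_)
      have a1 : n + (k : ℤ) + -(k : ℤ) = n := by ring
      simp only [a1]
    rw [e2] at h
    exact h

/-- Cauchy and Schwarz for the mean over a window -/
lemma win_sq (w : ℤ) (M : ℕ) (Y : ℤ → ℂ) (hM : 0 < M) :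
    ‖(∑ n ∈ Ioc w (w + M), Y n) / M‖ ^ 2 ≤ (∑ n ∈ Ioc w (w + M), ‖Y n‖ ^ 2) / M := by
  have hM' : (0 : ℝ) < M := by exact_mod_cast hM
  rw [norm_div, Complex.norm_natCast, div_pow]
  have h1 : ‖∑ n ∈ Ioc w (w + M), Y n‖ ^ 2 ≤ (∑ n ∈ Ioc w (w + M), ‖Y n‖) ^ 2 :=
    pow_le_pow_left₀ (norm_nonneg _) (norm_sum_le _ _) 2
  have h2 := sq_sum_le_card_mul_sum_sq (s := Ioc w (w + M)) (f := fun n => ‖Y n‖)
  rw [card_win] at h2
  rw [div_le_div_iff₀ (by positivity) hM']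
  calc ‖∑ n ∈ Ioc w (w + M), Y n‖ ^ 2 * M ≤ (M * ∑ n ∈ Ioc w (w + M), ‖Y n‖ ^ 2) * M :=
        mul_le_mul_of_nonneg_right (h1.trans h2) hM'.le
    _ = (∑ n ∈ Ioc w (w + M), ‖Y n‖ ^ 2) * (M : ℝ) ^ 2 := by ring

/-- van der Corput's inequality in a window, for one parameter -/
lemma vdc_one (w : ℤ) (M h : ℕ) (X : ℤ → ℂ) (hX : ∀ n, ‖X n‖ ≤ 1) (hM : 0 < M) (hh : 0 < h) :
    ‖(∑ n ∈ Ioc w (w + M), X n) / M‖ ^ 2 ≤
      (∑ n ∈ Ioc w (w + M), ‖(∑ k ∈ range h, X (n + k + 1)) / h‖ ^ 2) / M + 4 * h / M := by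
  have hM' : (0 : ℝ) < M := by exact_mod_cast hM
  have hh' : (0 : ℝ) < h := by exact_mod_cast hh
  set Y : ℤ → ℂ := fun n => (∑ k ∈ range h, X (n + k + 1)) / h with hY
  have hY1 : ∀ n, ‖Y n‖ ≤ 1 := by
    intro n
    rw [hY]
    simp only []
    rw [norm_div, Complex.norm_natCast, div_le_one hh']
    refine le_trans (norm_sum_le _ _) (le_trans (Finset.sum_le_sum (fun k _ => hX _)) ?_)
    simp
  have hd : ‖∑ n ∈ Ioc w (w + M), Y n - ∑ n ∈ Ioc w (w + M), X n‖ ≤ 2 * h := by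
    have h1 : ∑ n ∈ Ioc w (w + M), Y n =
        (∑ k ∈ range h, ∑ n ∈ Ioc w (w + M), X (n + ((k + 1 : ℕ) : ℤ))) / h := by
      rw [Finset.sum_comm, Finset.sum_div]
      refine Finset.sum_congr rfl (fun n _ => ?_)
      rw [hY]
      simp only []
      congr 1
      refine Finset.sum_congr rfl (fun k _ => ?_)
      congr 1
      push_cast
      ring
    have h2 : ∑ n ∈ Ioc w (w + M), X n = (∑ k ∈ range h, ∑ n ∈ Ioc w (w + M), X n) / h := by
      rw [Finset.sum_const, card_range, nsmul_eq_mul, mul_div_cancel_left₀]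
      exact_mod_cast hh.ne'
    rw [h1]
    conv_lhs => rw [h2]
    rw [← sub_div, ← Finset.sum_sub_distrib, norm_div, Complex.norm_natCast, div_le_iff₀ hh']
    refine le_trans (norm_sum_le _ _) ?_
    have h3 : ∀ k ∈ range h, ‖∑ n ∈ Ioc w (w + M), X (n + ((k + 1 : ℕ) : ℤ)) -
        ∑ n ∈ Ioc w (w + M), X n‖ ≤ 2 * h := by
      intro k hk
      refine le_trans (win_shift w M X hX hM (k + 1)) ?_
      have h4 : ((k + 1 : ℕ) : ℝ) ≤ h := by exact_mod_cast (mem_range.1 hk)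
      linarith
    refine le_trans (Finset.sum_le_sum h3) ?_
    rw [Finset.sum_const, card_range, nsmul_eq_mul]
    exact le_of_eq (by ring)
  set a : ℂ := (∑ n ∈ Ioc w (w + M), X n) / M with ha
  set b : ℂ := (∑ n ∈ Ioc w (w + M), Y n) / M with hb
  have hab : ‖b - a‖ ≤ 2 * h / M := by
    rw [ha, hb, ← sub_div, norm_div, Complex.norm_natCast]
    exact div_le_div_of_nonneg_right hd hM'.le
  have hmean : ∀ Z : ℤ → ℂ, (∀ n, ‖Z n‖ ≤ 1) → ‖(∑ n ∈ Ioc w (w + M), Z n) / M‖ ≤ 1 := by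
    intro Z hZ
    rw [norm_div, Complex.norm_natCast, div_le_one hM']
    refine le_trans (norm_sum_le _ _) (le_trans (Finset.sum_le_sum (fun n _ => hZ n)) ?_)
    rw [Finset.sum_const, card_win, nsmul_eq_mul, mul_one]
  have ha1 : ‖a‖ ≤ 1 := hmean X hX
  have hb1 : ‖b‖ ≤ 1 := hmean Y hY1
  have h5 : ‖a‖ ^ 2 ≤ ‖b‖ ^ 2 + 4 * h / M := by
    have h6 : ‖a‖ ≤ ‖b‖ + ‖b - a‖ := by
      have h7 : a = b - (b - a) := by ring
      conv_lhs => rw [h7]
      exact norm_sub_le _ _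
    have h8 : ‖a‖ ^ 2 - ‖b‖ ^ 2 = (‖a‖ + ‖b‖) * (‖a‖ - ‖b‖) := by ring
    have h9 : (‖a‖ + ‖b‖) * (‖a‖ - ‖b‖) ≤ 2 * (2 * h / M) := by
      rcases le_or_gt (‖a‖ - ‖b‖) 0 with h10 | h10
      · have h11 : (‖a‖ + ‖b‖) * (‖a‖ - ‖b‖) ≤ 0 :=
          mul_nonpos_of_nonneg_of_nonpos (by positivity) h10
        have h12 : (0 : ℝ) ≤ 2 * (2 * h / M) := by positivity
        linarith
      · exact mul_le_mul (by linarith) (by linarith) h10.le (by norm_num)
    have h13 : 2 * (2 * (h : ℝ) / M) = 4 * h / M := by ring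
    linarith
  refine le_trans h5 ?_
  have h14 := win_sq w M Y hM
  linarith

/-- the square of an average -/
lemma sq_avg (h : ℕ) (z : ℕ → ℂ) : ((‖(∑ k ∈ range h, z k) / (h : ℂ)‖ ^ 2 : ℝ) : ℂ) =
    (∑ k ∈ range h, ∑ k' ∈ range h, z k * cj (z k')) / (h : ℂ) ^ 2 := by
  rw [← mul_cj]
  have e3 : cj ((∑ k ∈ range h, z k) / (h : ℂ)) = (∑ k ∈ range h, cj (z k)) / (h : ℂ) := by
    unfold cj
    rw [map_div₀, map_sum, Complex.conj_natCast]
  rw [e3, div_mul_div_comm, Finset.sum_mul_sum, sq]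

lemma DZ_nonneg (c H K J : ℕ) : ∀ (Φ : ℤ → ℂ) (m : ℤ), 0 ≤ DZ c H K J Φ m := by
  induction J with
  | zero =>
    intro Φ m
    have e : DZ c H K 0 Φ m = ‖(∑ k ∈ range K, Φ (m + k + 1)) / K‖ ^ 2 := rfl
    rw [e]
    positivity
  | succ J ih =>
    intro Φ m
    have e2 : DZ c H K (J + 1) Φ m = (∑ x ∈ range H, ∑ y ∈ range H,
      DZ c H K J (fun a => Φ (a + c * x) * cj (Φ (a + c * y))) m) / (H : ℝ) ^ 2 := rfl
    rw [e2]
    exact div_nonneg (Finset.sum_nonneg (fun x _ => Finset.sum_nonneg (fun y _ => ih _ _)))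
      (by positivity)

lemma DZ_le_one (c H K J : ℕ) (hH : 0 < H) (hK : 0 < K) : ∀ (Φ : ℤ → ℂ) (m : ℤ),
    (∀ n, ‖Φ n‖ ≤ 1) → DZ c H K J Φ m ≤ 1 := by
  have hH' : (0 : ℝ) < H := by exact_mod_cast hH
  have hK' : (0 : ℝ) < K := by exact_mod_cast hK
  induction J with
  | zero =>
    intro Φ m hΦ
    have e : DZ c H K 0 Φ m = ‖(∑ k ∈ range K, Φ (m + k + 1)) / K‖ ^ 2 := rfl
    rw [e]
    refine pow_le_one₀ (norm_nonneg _) ?_
    rw [norm_div, Complex.norm_natCast, div_le_one hK']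
    refine le_trans (norm_sum_le _ _) (le_trans (Finset.sum_le_sum (fun k _ => hΦ _)) ?_)
    simp
  | succ J ih =>
    intro Φ m hΦ
    have e2 : DZ c H K (J + 1) Φ m = (∑ x ∈ range H, ∑ y ∈ range H,
      DZ c H K J (fun a => Φ (a + c * x) * cj (Φ (a + c * y))) m) / (H : ℝ) ^ 2 := rfl
    rw [e2, div_le_one (by positivity)]
    have h1 : ∀ x y : ℕ, DZ c H K J (fun a => Φ (a + c * x) * cj (Φ (a + c * y))) m ≤ 1 := by
      intro x y
      refine ih _ m (fun n => ?_)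
      rw [norm_mul, norm_cj]
      exact mul_le_one₀ (hΦ _) (norm_nonneg _) (hΦ _)
    refine le_trans (Finset.sum_le_sum (fun x _ => Finset.sum_le_sum (fun y _ => h1 x y))) ?_
    simp only [Finset.sum_const, card_range, nsmul_eq_mul]
    exact le_of_eq (by ring)

lemma EM_ofReal {R : ℕ} (K M : ℕ) (w : ℤ) (X : (Fin R → ℕ) → ℤ → ℝ) :
    EM K M w (fun t n => (X t n : ℂ)) =
      (((∑ t ∈ Tk R K, ∑ n ∈ Ioc w (w + M), X t n) / ((K : ℝ) ^ R * M) : ℝ) : ℂ) := by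
  unfold EM
  push_cast
  rfl

/-- Row GVN. -/
theorem pf_GVN (hI : T_GVI) (hZ : T_BZD) : T_GVN := by
  intro J R a c h hJ hh hc hDv
  obtain ⟨A', s, hA', hI'⟩ := hI J R a c h hJ hh hc hDv
  refine ⟨A' + ((2 ^ J : ℕ) : ℝ) * 2 ^ (2 ^ J) * (4 * h) + 2 * |(s : ℝ)|, by positivity, ?_⟩
  intro f g w M K hf hg hM hK
  have hM' : (0 : ℝ) < M := by exact_mod_cast hM
  have hK' : (0 : ℝ) < K := by exact_mod_cast hK
  have hh' : (0 : ℝ) < h := by exact_mod_cast hh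
  set δ : ℝ := 1 / (M : ℝ) + 1 / K with hδ
  have hδ0 : 0 ≤ δ := by positivity
  have hMδ : 1 / (M : ℝ) ≤ δ := by
    rw [hδ]
    have : (0 : ℝ) ≤ 1 / K := by positivity
    linarith
  set X : (Fin R → ℕ) → ℤ → ℂ := fun t n => f (n + lf (a 0) t) *
    ∏ j, g j (n + lf (a j.succ) t) with hX
  have hX1 : ∀ t n, ‖X t n‖ ≤ 1 := by
    intro t n
    rw [hX]
    simp only []
    rw [norm_mul, norm_prod]
    refine mul_le_one₀ (hf _) (Finset.prod_nonneg (fun _ _ => norm_nonneg _)) ?_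
    exact Finset.prod_le_one (fun _ _ => norm_nonneg _) (fun j _ => hg _ _)
  set T : ℝ := (∑ t ∈ Tk R K, ‖(∑ n ∈ Ioc w (w + M), X t n) / M‖) / (K : ℝ) ^ R with hT
  set L : ℝ := (∑ t ∈ Tk R K, ‖(∑ n ∈ Ioc w (w + M), X t n) / M‖ ^ 2) / (K : ℝ) ^ R with hL
  have hT0 : 0 ≤ T := by
    rw [hT]
    exact div_nonneg (Finset.sum_nonneg (fun _ _ => norm_nonneg _)) (by positivity)
  have hL0 : 0 ≤ L := by
    rw [hL]
    exact div_nonneg (Finset.sum_nonneg (fun _ _ => by positivity)) (by positivity)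
  have hin1 : ∀ t, ‖(∑ n ∈ Ioc w (w + M), X t n) / M‖ ≤ 1 := by
    intro t
    rw [norm_div, Complex.norm_natCast, div_le_one hM']
    refine le_trans (norm_sum_le _ _) (le_trans (Finset.sum_le_sum (fun n _ => hX1 t n)) ?_)
    rw [Finset.sum_const, card_win, nsmul_eq_mul, mul_one]
  have hL1 : L ≤ 1 := by
    rw [hL, div_le_one (by positivity)]
    refine le_trans (Finset.sum_le_sum (fun t _ => pow_le_one₀ (norm_nonneg _) (hin1 t))) ?_
    rw [Finset.sum_const, card_Tk, nsmul_eq_mul, mul_one]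
    push_cast
    exact le_rfl
  have hTL : T ^ 2 ≤ L := by
    rw [hT, hL, div_pow]
    have h2 := sq_sum_le_card_mul_sum_sq (s := Tk R K)
      (f := fun t => ‖(∑ n ∈ Ioc w (w + M), X t n) / (M : ℂ)‖)
    rw [card_Tk] at h2
    push_cast at h2
    have hKR : (0 : ℝ) < (K : ℝ) ^ R := by positivity
    rw [div_le_div_iff₀ (by positivity) hKR]
    refine le_trans (mul_le_mul_of_nonneg_right h2 hKR.le) (le_of_eq (by ring))
  set B : ℝ := (∑ t ∈ Tk R K, ∑ n ∈ Ioc w (w + M), ‖(∑ k ∈ range h, X t (n + k + 1)) / h‖ ^ 2) /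
    ((K : ℝ) ^ R * M) with hB
  have hLB : L ≤ B + 4 * h / M := by
    rw [hL, hB]
    have h1 : (∑ t ∈ Tk R K, ‖(∑ n ∈ Ioc w (w + M), X t n) / M‖ ^ 2) ≤
        ∑ t ∈ Tk R K, ((∑ n ∈ Ioc w (w + M), ‖(∑ k ∈ range h, X t (n + k + 1)) / h‖ ^ 2) / M +
          4 * h / M) :=
      Finset.sum_le_sum (fun t _ => vdc_one w M h (X t) (hX1 t) hM hh)
    rw [Finset.sum_add_distrib, Finset.sum_const, card_Tk, nsmul_eq_mul, ← Finset.sum_div] at h1
    push_cast at h1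
    rw [div_le_iff₀ (by positivity)]
    refine le_trans h1 (le_of_eq ?_)
    field_simp
  set Z : ℕ → ℕ → ℂ := fun k k' => EM K M w (fun t n => X t (n + k + 1) *
    cj (X t (n + k' + 1))) with hZd
  have hBZ : (B : ℂ) = (∑ k ∈ range h, ∑ k' ∈ range h, Z k k') / (h : ℂ) ^ 2 := by
    rw [hZd, ← EM_avg, hB, ← EM_ofReal]
    congr 1
    funext t n
    exact sq_avg h (fun k => X t (n + k + 1))
  have hB2 : B ≤ (∑ k ∈ range h, ∑ k' ∈ range h, ‖Z k k'‖) / (h : ℝ) ^ 2 := by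
    have h1 : B ≤ ‖(B : ℂ)‖ := by
      rw [Complex.norm_real]
      exact le_abs_self B
    refine le_trans h1 ?_
    rw [hBZ, norm_div, norm_pow, Complex.norm_natCast]
    refine div_le_div_of_nonneg_right ?_ (by positivity)
    refine le_trans (norm_sum_le _ _) (Finset.sum_le_sum (fun k _ => norm_sum_le _ _))
  have hZ1 : ∀ k k', ‖Z k k'‖ ≤ 1 := by
    intro k k'
    rw [hZd]
    refine EM_norm_le hK hM w _ (fun t n => ?_)
    rw [norm_mul, norm_cj]
    exact mul_le_one₀ (hX1 _ _) (norm_nonneg _) (hX1 _ _)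
  have hpow := pow_step h hh (fun x y => ‖Z x y‖) (fun _ _ => norm_nonneg _) hZ1 L
    (4 * h / M) hL0 hL1 (by positivity) (by linarith) (2 ^ J) Nat.one_le_two_pow
  have hone : ∀ k k', ‖Z k k'‖ ^ (2 ^ J) ≤ (EM K M w (fun t n =>
      BZ c h J (fun b => f (b + k + 1) * cj (f (b + k' + 1))) (n + lf (a 0) t + s))).re +
        A' * δ := by
    intro k k'
    have h1 := hI' (fun b => f (b + k + 1) * cj (f (b + k' + 1)))
      (fun j b => g j (b + k + 1) * cj (g j (b + k' + 1))) w M K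
      (fun b => by
        rw [norm_mul, norm_cj]
        exact mul_le_one₀ (hf _) (norm_nonneg _) (hf _))
      (fun j b => by
        rw [norm_mul, norm_cj]
        exact mul_le_one₀ (hg _ _) (norm_nonneg _) (hg _ _)) hM hK
    have hZe : Z k k' = EM K M w (fun t n =>
        (fun b => f (b + k + 1) * cj (f (b + k' + 1))) (n + (lf (a 0) t : ℤ)) *
        ∏ j, (fun (j : Fin J) (b : ℤ) => g j (b + k + 1) * cj (g j (b + k' + 1))) j
          (n + (lf (a j.succ) t : ℤ))) := by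
      rw [hZd]
      refine congrArg (EM K M w) (funext fun t => funext fun n => ?_)
      have a1 : n + (k : ℤ) + 1 + (lf (a 0) t : ℤ) = n + lf (a 0) t + k + 1 := by ring
      have a2 : n + (k' : ℤ) + 1 + (lf (a 0) t : ℤ) = n + lf (a 0) t + k' + 1 := by ring
      have a3 : ∀ j : Fin J, n + (k : ℤ) + 1 + (lf (a j.succ) t : ℤ) =
          n + lf (a j.succ) t + k + 1 := fun j => by ring
      have a4 : ∀ j : Fin J, n + (k' : ℤ) + 1 + (lf (a j.succ) t : ℤ) =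
          n + lf (a j.succ) t + k' + 1 := fun j => by ring
      have b1 : X t (n + k + 1) = f (n + lf (a 0) t + k + 1) *
          ∏ j, g j (n + lf (a j.succ) t + k + 1) := by
        rw [hX]
        simp only [a1, a3]
      have b2 : X t (n + k' + 1) = f (n + lf (a 0) t + k' + 1) *
          ∏ j, g j (n + lf (a j.succ) t + k' + 1) := by
        rw [hX]
        simp only [a2, a4]
      rw [b1, b2, cj_mul, cj_prod, Finset.prod_mul_distrib]
      ring
    rw [hZe]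
    exact h1
  set D : ℝ := (∑ t ∈ Tk R K, ∑ n ∈ Ioc w (w + M), DZ c h h J f (n + lf (a 0) t + s)) /
    ((K : ℝ) ^ R * M) with hD
  have hsum : (∑ k ∈ range h, ∑ k' ∈ range h, ‖Z k k'‖ ^ (2 ^ J)) / (h : ℝ) ^ 2 ≤ D + A' * δ := by
    have hDe : D = (∑ k ∈ range h, ∑ k' ∈ range h, (EM K M w (fun t n =>
        BZ c h J (fun b => f (b + k + 1) * cj (f (b + k' + 1)))
          (n + (lf (a 0) t : ℤ) + s))).re) / (h : ℝ) ^ 2 := by
      rw [← re_avg, ← EM_avg]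
      have h2 : (fun (t : Fin R → ℕ) (n : ℤ) => (∑ k ∈ range h, ∑ k' ∈ range h,
          BZ c h J (fun b => f (b + k + 1) * cj (f (b + k' + 1)))
            (n + (lf (a 0) t : ℤ) + s)) / (h : ℂ) ^ 2) =
          fun t n => ((DZ c h h J f (n + (lf (a 0) t : ℤ) + s) : ℝ) : ℂ) := by
        funext t n
        exact hZ c h h J f _ hh
      rw [h2, EM_ofReal, Complex.ofReal_re, hD]
    rw [hDe, div_add' _ _ _ (by positivity)]
    refine div_le_div_of_nonneg_right ?_ (by positivity)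
    refine le_trans (Finset.sum_le_sum (fun x _ => Finset.sum_le_sum (fun y _ => hone x y))) ?_
    simp only [Finset.sum_add_distrib, Finset.sum_const, card_range, nsmul_eq_mul]
    refine le_of_eq ?_
    ring
  have hrem : D ≤ (∑ t ∈ Tk R K, ∑ n ∈ Ioc w (w + M), DZ c h h J f (n + lf (a 0) t)) /
      ((K : ℝ) ^ R * M) + 2 * |(s : ℝ)| / M := by
    rw [hD, div_add' _ _ _ (by positivity)]
    refine div_le_div_of_nonneg_right ?_ (by positivity)
    have h3 : ∀ t : Fin R → ℕ, ∑ n ∈ Ioc w (w + M), DZ c h h J f (n + lf (a 0) t + s) ≤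
        ∑ n ∈ Ioc w (w + M), DZ c h h J f (n + lf (a 0) t) + 2 * |(s : ℝ)| := by
      intro t
      have h4 := win_shift_int w M (fun n => ((DZ c h h J f (n + lf (a 0) t) : ℝ) : ℂ))
        (fun n => by
          rw [Complex.norm_real, Real.norm_eq_abs, abs_of_nonneg (DZ_nonneg _ _ _ _ _ _)]
          exact DZ_le_one c h h J hh hh f _ hf) hM s
      have h5 : ∑ n ∈ Ioc w (w + M), ((DZ c h h J f (n + s + lf (a 0) t) : ℝ) : ℂ) -
          ∑ n ∈ Ioc w (w + M), ((DZ c h h J f (n + lf (a 0) t) : ℝ) : ℂ) =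
          ((∑ n ∈ Ioc w (w + M), DZ c h h J f (n + lf (a 0) t + s) -
            ∑ n ∈ Ioc w (w + M), DZ c h h J f (n + lf (a 0) t) : ℝ) : ℂ) := by
        push_cast
        congr 1
        refine Finset.sum_congr rfl (fun n _ => ?_)
        congr 2
        ring
      rw [h5, Complex.norm_real, Real.norm_eq_abs] at h4
      have h6 := le_trans (le_abs_self _) h4
      linarith
    refine le_trans (Finset.sum_le_sum (fun t _ => h3 t)) ?_
    rw [Finset.sum_add_distrib, Finset.sum_const, card_Tk, nsmul_eq_mul]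
    push_cast
    refine le_of_eq ?_
    field_simp
  have e1 : T ^ (2 ^ (J + 1)) = (T ^ 2) ^ (2 ^ J) := by
    rw [← pow_mul, pow_succ 2 J, mul_comm]
  rw [e1]
  have h7 : (T ^ 2) ^ (2 ^ J) ≤ L ^ (2 ^ J) := pow_le_pow_left₀ (by positivity) hTL _
  have h8 : ((2 ^ J : ℕ) : ℝ) * 2 ^ (2 ^ J) * (4 * h / M) ≤
      ((2 ^ J : ℕ) : ℝ) * 2 ^ (2 ^ J) * (4 * h) * δ := by
    have h9 : ((2 ^ J : ℕ) : ℝ) * 2 ^ (2 ^ J) * (4 * h / M) =
        ((2 ^ J : ℕ) : ℝ) * 2 ^ (2 ^ J) * (4 * h) * (1 / M) := by ring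
    rw [h9]
    exact mul_le_mul_of_nonneg_left hMδ (by positivity)
  have h10 : 2 * |(s : ℝ)| / M ≤ 2 * |(s : ℝ)| * δ := by
    have h11 : 2 * |(s : ℝ)| / M = 2 * |(s : ℝ)| * (1 / M) := by ring
    rw [h11]
    exact mul_le_mul_of_nonneg_left hMδ (by positivity)
  have h12 : (A' + ((2 ^ J : ℕ) : ℝ) * 2 ^ (2 ^ J) * (4 * h) + 2 * |(s : ℝ)|) * δ =
      A' * δ + ((2 ^ J : ℕ) : ℝ) * 2 ^ (2 ^ J) * (4 * h) * δ + 2 * |(s : ℝ)| * δ := by ring
  rw [h12]
  linarith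

end Pool.Agent.H19.GN
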